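import Pool.Agent.K1H22.SR.Stm2

/-! Piece EXT of the project SR2: finite extensions. -/

set_option autoImplicit false

namespace Pool.Agent.K1H59.SR2

open Pool.Agent.K1H22.SR2

section

variable {K G M T : Type} [Group K] [Group G] [AddCommMonoid M] {φ : K →* G}
  {κ : G ⧸ φ.range → G → K}

theorem fwd {E : Finset (T × G × M × T)}
    {E' : Finset ((T × (G ⧸ φ.range)) × K × M × (T × (G ⧸ φ.range)))}
    (hE : ∀ p g v q, (p, g, v, q) ∈ E → ∀ c, ((p, c), κ c g, v, (q, g⁻¹ • c)) ∈ E')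
    (h1 : ∀ c, κ c 1 = 1) (hm : ∀ c g h, κ c (g * h) = κ c g * κ (g⁻¹ • c) h)
    {p q : T} {g : G} {v : M} (h : GW E p q g v) (c : G ⧸ φ.range) :
    GW E' (p, c) (q, g⁻¹ • c) (κ c g) v := by
  induction h generalizing c with
  | nil =>
    rw [h1, inv_one, one_smul]
    exact GW.nil
  | @cons p p' q g h v w he _ ih =>
    have h2 := ih (g⁻¹ • c)
    rw [hm, mul_inv_rev, mul_smul]
    exact GW.cons (hE _ _ _ _ he c) h2

theorem bwd {E : Finset (T × G × M × T)}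
    {E' : Finset ((T × (G ⧸ φ.range)) × K × M × (T × (G ⧸ φ.range)))}
    (hE : ∀ x, x ∈ E' → ∃ p g v q c, (p, g, v, q) ∈ E ∧ x = ((p, c), κ c g, v, (q, g⁻¹ • c)))
    (h1 : ∀ c, κ c 1 = 1) (hm : ∀ c g h, κ c (g * h) = κ c g * κ (g⁻¹ • c) h)
    {x y : T × (G ⧸ φ.range)} {k : K} {v : M} (h : GW E' x y k v) :
    ∃ g, GW E x.1 y.1 g v ∧ y.2 = g⁻¹ • x.2 ∧ k = κ x.2 g := by
  induction h with
  | nil => exact ⟨1, GW.nil, by rw [inv_one, one_smul], (h1 _).symm⟩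
  | @cons x x' y k k' v w he _ ih =>
    obtain ⟨p, g, v0, q, c, he', hx⟩ := hE _ he
    obtain ⟨h, h3, h4, h5⟩ := ih
    simp only [Prod.mk.injEq] at hx
    obtain ⟨rfl, rfl, rfl, rfl⟩ := hx
    refine ⟨g * h, GW.cons he' h3, ?_, ?_⟩
    · rw [h4, mul_inv_rev, mul_smul]
    · rw [h5, hm]

end

theorem t_EXT : S_EXT := by
  classical
  intro K G _ _ φ hφ hfin hK M T _ _ _ E p q
  have hfi : φ.range.FiniteIndex := hfin
  have hex : ∀ (c : G ⧸ φ.range) (g : G), ∃ k : K, φ k = (c.out)⁻¹ * (g * (g⁻¹ • c).out) := by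
    intro c g
    have h1 : ((c.out : G) : G ⧸ φ.range) = ((g * (g⁻¹ • c).out : G) : G ⧸ φ.range) := by
      have h2 : ((g * (g⁻¹ • c).out : G) : G ⧸ φ.range) =
          g • (((g⁻¹ • c).out : G) : G ⧸ φ.range) := rfl
      rw [h2, QuotientGroup.out_eq', QuotientGroup.out_eq', smul_inv_smul]
    exact QuotientGroup.eq.mp h1
  choose κ hκ using hex
  have h1 : ∀ c, κ c 1 = 1 := by
    intro c
    apply hφ
    rw [hκ, inv_one, one_smul, one_mul, inv_mul_cancel, map_one]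
  have hm : ∀ c g h, κ c (g * h) = κ c g * κ (g⁻¹ • c) h := by
    intro c g h
    apply hφ
    rw [map_mul, hκ, hκ, hκ, mul_inv_rev, mul_smul]
    group
  have hfC : Finite (G ⧸ φ.range) := inferInstance
  have hFC : Fintype (G ⧸ φ.range) := Fintype.ofFinite _
  obtain ⟨E', hE'⟩ : ∃ E' : Finset ((T × (G ⧸ φ.range)) × K × M × (T × (G ⧸ φ.range))),
      E' = (E ×ˢ (Finset.univ : Finset (G ⧸ φ.range))).image
        (fun y => ((y.1.1, y.2), κ y.2 y.1.2.1, y.1.2.2.1, (y.1.2.2.2, (y.1.2.1)⁻¹ • y.2))) :=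
    ⟨_, rfl⟩
  have hE1 : ∀ p g v q, (p, g, v, q) ∈ E → ∀ c, ((p, c), κ c g, v, (q, g⁻¹ • c)) ∈ E' := by
    intro p g v q hpq c
    rw [hE', Finset.mem_image]
    exact ⟨((p, g, v, q), c), Finset.mem_product.mpr ⟨hpq, Finset.mem_univ _⟩, rfl⟩
  have hE2 : ∀ x, x ∈ E' → ∃ p g v q c, (p, g, v, q) ∈ E ∧
      x = ((p, c), κ c g, v, (q, g⁻¹ • c)) := by
    intro x hx
    rw [hE', Finset.mem_image] at hx
    obtain ⟨⟨⟨p, g, v, q⟩, c⟩, hy, rfl⟩ := hx
    exact ⟨p, g, v, q, c, (Finset.mem_product.mp hy).1, rfl⟩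
  obtain ⟨c0⟩ : Nonempty (G ⧸ φ.range) := ⟨((1 : G) : G ⧸ φ.range)⟩
  have hset : {v : M | GW E p q 1 v} = {v : M | GW E' (p, c0) (q, c0) 1 v} := by
    ext v
    constructor
    · intro h
      have h2 := fwd hE1 h1 hm h c0
      rw [h1, inv_one, one_smul] at h2
      exact h2
    · intro h
      obtain ⟨g, h3, h4, h5⟩ := bwd hE2 h1 hm h
      simp only at h3 h4 h5
      have h6 : φ 1 = (c0.out)⁻¹ * (g * (g⁻¹ • c0).out) := by
        rw [h5, hκ]
      rw [← h4, map_one] at h6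
      have h7 : g = 1 := by
        have h8 : c0.out = g * c0.out := by
          have h9 := congrArg (fun z => c0.out * z) h6
          simpa using h9
        have h10 := congrArg (fun z => z * (c0.out)⁻¹) h8
        simpa using h10.symm
      rw [h7] at h3
      exact h3
  rw [hset]
  exact hK M (T × (G ⧸ φ.range)) E' (p, c0) (q, c0)

end Pool.Agent.K1H59.SR2
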