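import Pool.Agent.K1H22.SR.Stm3
import Pool.Agent.K1H16.SR.Main

/-! Piece MAIN3 of the project SR3 (adapted from `K1H68.SR2.Main2` of helper68). -/

set_option autoImplicit false

namespace Pool.Agent.K1H59.SR2

open Pool.Agent.K1H22.SR Pool.Agent.K1H22.SR2 Pool.Agent.K1H16.SR Filter

theorem t_MAIN3 (h1 : Pool.Agent.K1H22.SR.S_DYER) (h2 : S_SLOPE2) (h3 : S_COS2) : S_MAIN3 := by
  classical
  intro B W _ _ _ M cs ω H hωH hS
  by_cases hω : ω = []
  · refine ⟨0, ?_⟩
    subst hω
    have h : (fun n : ℕ => (rl cs (cs.wordProd [] ^ n) : ℝ) / n) = fun _ => ((0 : ℚ) : ℝ) := by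
      funext n
      rw [cs.wordProd_nil, one_pow, rl_one]
      simp
    rw [h]
    exact tendsto_const_nhds
  set w := cs.wordProd ω with hw
  -- subadditivity
  set a : ℕ → ℝ := fun n => (rl cs (w ^ n) : ℝ) with ha
  have hsub : Subadditive a := by
    intro m n
    simp only [ha]
    rw [pow_add]
    exact_mod_cast rl_mul cs _ _
  have hbdd : BddBelow (Set.range fun n => a n / n) := by
    refine ⟨0, ?_⟩
    rintro _ ⟨n, rfl⟩
    simp only [ha]
    positivity
  have htend := hsub.tendsto_lim hbdd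
  set s : ℝ := hsub.lim with hs
  have hsn : ∀ n : ℕ, s * n ≤ a n := by
    intro n
    rcases Nat.eq_zero_or_pos n with rfl | hn
    · simp only [ha]
      push_cast
      rw [mul_zero]
      positivity
    · have h := hsub.lim_le_div hbdd hn.ne'
      have hn' : (0 : ℝ) < n := by exact_mod_cast hn
      rw [le_div_iff₀ hn'] at h
      exact h
  -- the letters in the subgroup
  obtain ⟨f, hf⟩ : ∃ f : B → H, ∀ b, cs.simple b ∈ H → ((f b : H) : W) = cs.simple b := by
    refine ⟨fun b => if h : cs.simple b ∈ H then ⟨cs.simple b, h⟩ else 1, fun b hb => ?_⟩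
    simp only
    rw [dif_pos hb]
  have hprod : ∀ u : List B, (∀ b ∈ u, b ∈ ω) →
      (((u.map f).prod : H) : W) = cs.wordProd u := by
    intro u
    induction u with
    | nil => intro _; simp
    | cons b u ih =>
      intro hu
      rw [List.map_cons, List.prod_cons, Subgroup.coe_mul, ih (fun c hc => hu c (List.mem_cons_of_mem _ hc)),
        hf b (hωH b (hu b List.mem_cons_self)), cs.wordProd_cons]
  have hlet : ∀ (n : ℕ) (u : List B), u.Sublist (List.replicate n ω).flatten →
      ∀ b ∈ u, b ∈ ω := by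
    intro n u hu b hb
    have h4 := hu.subset hb
    rw [List.mem_flatten] at h4
    obtain ⟨l, hl, hbl⟩ := h4
    rw [List.eq_of_mem_replicate hl] at hbl
    exact hbl
  have hone : ∀ (n : ℕ) (u : List B), u.Sublist (List.replicate n ω).flatten →
      ((u.map f).prod = 1 ↔ cs.wordProd u = 1) := by
    intro n u hu
    rw [← hprod u (hlet n u hu)]
    constructor
    · intro h; rw [h]; rfl
    · intro h; exact Subtype.ext h
  -- the semilinear set
  obtain ⟨T, hT, E, t0, hE⟩ := h3 H B f ω hω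
  have hsemi : IsSemilinearSet {v : ℕ × ℕ | GW E t0 t0 1 v} := hS (ℕ × ℕ) T E t0 t0
  obtain ⟨q, hq⟩ := h2 {v : ℕ × ℕ | GW E t0 t0 1 v} s hsemi (by
    intro n d hd
    obtain ⟨u, u1, u2, u3⟩ := (hE n d).1 hd
    have h := (h1 B W M cs (List.replicate n ω).flatten).1 u u1 ((hone n u u1).1 u2)
    rw [wordProd_rep, length_rep, ← u3, ← hw] at h
    have h' : rl cs (w ^ n) ≤ d := by omega
    refine (hsn n).trans ?_
    simp only [ha]
    exact_mod_cast h') (by
    intro ε hε N
    have hev : ∀ᶠ n : ℕ in atTop, a n / n < s + ε :=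
      htend.eventually_lt_const (by linarith)
    obtain ⟨n, hn1, hn2⟩ := (hev.and (eventually_ge_atTop (max N 1))).exists
    have hn3 : N ≤ n := (le_max_left _ _).trans hn2
    have hn4 : 1 ≤ n := (le_max_right _ _).trans hn2
    have hn' : (0 : ℝ) < n := by exact_mod_cast hn4
    refine ⟨n, rl cs (w ^ n), hn3, (hE _ _).2 ?_, ?_⟩
    · obtain ⟨u, u1, u2, u3⟩ := (h1 B W M cs (List.replicate n ω).flatten).2
      rw [wordProd_rep, length_rep, ← hw] at u3
      exact ⟨u, u1, (hone n u u1).2 u2, by omega⟩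
    · rw [div_lt_iff₀ hn'] at hn1
      exact hn1.le)
  refine ⟨q, ?_⟩
  rw [← hq]
  exact htend

end Pool.Agent.K1H59.SR2
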