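import Pool.Agent.K1H22.SR.Stm4
import Pool.Agent.K1H16.SR.Main

/-! Piece MAIN4 of the project SR: quasi-linearity. -/

set_option autoImplicit false

namespace Pool.Agent.K1H59.SR2

open Pool.Agent.K1H22.SR Pool.Agent.K1H22.SR2 Pool.Agent.K1H16.SR

theorem t_MAIN4 (h1 : Pool.Agent.K1H22.SR.S_DYER) (h2 : S_QL) (h3 : S_COS2) : S_MAIN4 := by
  classical
  intro B W _ _ _ M cs ω H hωH hS
  by_cases hω : ω = []
  · refine ⟨1, 0, 0, one_pos, fun n _ => ?_⟩
    subst hω
    rw [cs.wordProd_nil, one_pow, one_pow, add_zero]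
  set w := cs.wordProd ω with hw
  -- the letters in the subgroup
  obtain ⟨f, hf⟩ : ∃ f : B → H, ∀ b, cs.simple b ∈ H → ((f b : H) : W) = cs.simple b := by
    refine ⟨fun b => if h : cs.simple b ∈ H then ⟨cs.simple b, h⟩ else 1, fun b hb => ?_⟩
    simp only
    rw [dif_pos hb]
  have hprod : ∀ u : List B, (∀ b ∈ u, b ∈ ω) →
      (((u.map f).prod : H) : W) = cs.wordProd u := by
    intro u
    induction u with
    | nil => intro _; simp
    | cons b u ih =>
      intro hu
      rw [List.map_cons, List.prod_cons, Subgroup.coe_mul,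
        ih (fun c hc => hu c (List.mem_cons_of_mem _ hc)),
        hf b (hωH b (hu b List.mem_cons_self)), cs.wordProd_cons]
  have hlet : ∀ (n : ℕ) (u : List B), u.Sublist (List.replicate n ω).flatten →
      ∀ b ∈ u, b ∈ ω := by
    intro n u hu b hb
    have h4 := hu.subset hb
    rw [List.mem_flatten] at h4
    obtain ⟨l, hl, hbl⟩ := h4
    rw [List.eq_of_mem_replicate hl] at hbl
    exact hbl
  have hone : ∀ (n : ℕ) (u : List B), u.Sublist (List.replicate n ω).flatten →
      ((u.map f).prod = 1 ↔ cs.wordProd u = 1) := by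
    intro n u hu
    rw [← hprod u (hlet n u hu)]
    constructor
    · intro h; rw [h]; rfl
    · intro h; exact Subtype.ext h
  -- the semilinear set
  obtain ⟨T, hT, E, t0, hE⟩ := h3 H B f ω hω
  have hsemi : IsSemilinearSet {v : ℕ × ℕ | GW E t0 t0 1 v} := hS (ℕ × ℕ) T E t0 t0
  exact h2 {v : ℕ × ℕ | GW E t0 t0 1 v} (fun n => rl cs (w ^ n)) hsemi (by
    intro n
    refine (hE _ _).2 ?_
    obtain ⟨u, u1, u2, u3⟩ := (h1 B W M cs (List.replicate n ω).flatten).2
    rw [wordProd_rep, length_rep, ← hw] at u3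
    exact ⟨u, u1, (hone n u u1).2 u2, by omega⟩) (by
    intro n d hd
    obtain ⟨u, u1, u2, u3⟩ := (hE n d).1 hd
    have h := (h1 B W M cs (List.replicate n ω).flatten).1 u u1 ((hone n u u1).1 u2)
    rw [wordProd_rep, length_rep, ← u3, ← hw] at h
    change rl cs (w ^ n) ≤ d
    omega) (by
    intro m n

    rw [pow_add]
    exact rl_mul cs _ _)

end Pool.Agent.K1H59.SR2
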